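import Pool.Agent.H70.RG.Targets

/-!
Row ECVD of reg_modules: smoothness and derivative of a convolution.
-/

set_option autoImplicit false

namespace Pool.Agent.H33.RG

open MeasureTheory Metric Set Filter Topology Pool.Agent.H87.SN Pool.Agent.H70.RG
open scoped ContDiff Convolution

theorem pf_CVD : T_CVD := by
  intro n F _ _ _ k v hk hc hv
  have hcv : cv k v = (k ⋆[ContinuousLinearMap.lsmul ℝ ℝ, volume] v : E n → F) := by
    funext x
    exact (convolution_lsmul_swap).symm
  refine ⟨?_, ?_⟩
  · rw [hcv]
    exact hc.contDiff_convolution_left _ hk hv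
  · intro x e
    have h1 : HasFDerivAt (cv k v)
        ((fderiv ℝ k ⋆[(ContinuousLinearMap.lsmul ℝ ℝ).precompL (E n), volume] v) x) x := by
      rw [hcv]
      exact hc.hasFDerivAt_convolution_left _ (hk.of_le (by simp)) hv x
    rw [h1.fderiv, convolution_eq_swap]
    have hI : Integrable (fun t => (((ContinuousLinearMap.lsmul ℝ ℝ).precompL (E n))
        (fderiv ℝ k (x - t))) (v t)) := by
      have := (hc.fderiv (𝕜 := ℝ)).convolutionExists_left
        ((ContinuousLinearMap.lsmul ℝ ℝ).precompL (E n))
        (hk.continuous_fderiv (by simp)) hv x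
      exact (convolutionExistsAt_iff_integrable_swap).1 this
    rw [ContinuousLinearMap.integral_apply hI]
    rfl

end Pool.Agent.H33.RG
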